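import Mathlib

/-! # Non-integrality of the Schmidt-type coefficients -/

set_option autoImplicit false

namespace Pool.Agent.Results.MP_90f83a_nt.NonIntegral

open Finset

/-- `c` satisfies the defining system of the coefficients `c_k^{(r,s)}`: for every `n`,
`∑_{k ≤ n} C(n,k)^r C(n+k,k)^r = ∑_{k ≤ n} C(n,k)^s C(n+k,k)^s c_k`. -/
def IsCoeff (r s : ℕ) (c : ℕ → ℚ) : Prop :=
  ∀ n : ℕ, ∑ k ∈ range (n + 1), (n.choose k : ℚ) ^ r * ((n + k).choose k : ℚ) ^ r =
    ∑ k ∈ range (n + 1), (n.choose k : ℚ) ^ s * ((n + k).choose k : ℚ) ^ s * c k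

/-- the solution of the triangular system -/
noncomputable def sol (r s : ℕ) : ℕ → ℚ
  | n => (∑ k ∈ range (n + 1), (n.choose k : ℚ) ^ r * ((n + k).choose k : ℚ) ^ r -
      ∑ k : Fin n, (n.choose k : ℚ) ^ s * ((n + k).choose k : ℚ) ^ s * sol r s k) /
        ((n.choose n : ℚ) ^ s * ((n + n).choose n : ℚ) ^ s)
  decreasing_by exact k.2

theorem lead_ne (n s : ℕ) : ((n.choose n : ℚ) ^ s * ((n + n).choose n : ℚ) ^ s) ≠ 0 := by
  have h1 : (n.choose n : ℚ) ≠ 0 := by
    rw [Nat.choose_self]; norm_num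
  have h2 : ((n + n).choose n : ℚ) ≠ 0 := by
    exact_mod_cast (Nat.choose_pos (by omega)).ne'
  exact mul_ne_zero (pow_ne_zero _ h1) (pow_ne_zero _ h2)

theorem sol_isCoeff (r s : ℕ) : IsCoeff r s (sol r s) := by
  intro n
  rw [sum_range_succ (fun k => (n.choose k : ℚ) ^ s * ((n + k).choose k : ℚ) ^ s * sol r s k) n,
    ← Fin.sum_univ_eq_sum_range
      (fun k => (n.choose k : ℚ) ^ s * ((n + k).choose k : ℚ) ^ s * sol r s k) n]
  have h := sol.eq_1 r s n
  rw [eq_div_iff (lead_ne n s)] at h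
  rw [mul_comm ((n.choose n : ℚ) ^ s * ((n + n).choose n : ℚ) ^ s), h]
  ring

theorem unique (r s : ℕ) (c d : ℕ → ℚ) (hc : IsCoeff r s c) (hd : IsCoeff r s d) : c = d := by
  funext n
  induction n using Nat.strong_induction_on with
  | _ n ih =>
    have h1 := hc n
    have h2 := hd n
    rw [h1, sum_range_succ, sum_range_succ] at h2
    have h3 : ∑ k ∈ range n, (n.choose k : ℚ) ^ s * ((n + k).choose k : ℚ) ^ s * c k =
        ∑ k ∈ range n, (n.choose k : ℚ) ^ s * ((n + k).choose k : ℚ) ^ s * d k := by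
      apply sum_congr rfl
      intro k hk
      rw [ih k (mem_range.mp hk)]
    rw [h3] at h2
    exact mul_left_cancel₀ (lead_ne n s) (add_left_cancel h2)

theorem main (r s : ℕ) (hs : 1 < s) (hr : s < r) (z : ℕ → ℤ)
    (hz : ∀ n : ℕ, ∑ k ∈ range (n + 1), ((n.choose k : ℤ) * ((n + k).choose k : ℤ)) ^ r =
      ∑ k ∈ range (n + 1), ((n.choose k : ℤ) * ((n + k).choose k : ℤ)) ^ s * z k) : False := by
  obtain ⟨m, rfl⟩ : ∃ m, r = s + m := ⟨r - s, by omega⟩
  have hm : 0 < m := by omega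
  -- the first two coefficients
  have z0 : z 0 = 1 := by
    have := hz 0
    simp at this
    exact this.symm
  have z1 : z 1 = 2 ^ m := by
    have := hz 1
    simp [sum_range_succ, z0] at this
    rw [pow_add] at this
    exact (mul_left_cancel₀ (pow_ne_zero _ (by norm_num)) this).symm
  obtain ⟨p, hpm, hp⟩ := Nat.exists_infinite_primes (m + 5)
  obtain ⟨q, rfl⟩ : ∃ q, p = q + 3 := ⟨p - 3, by omega⟩
  have h := hz (q + 1)
  set A : ℕ → ℤ := fun k => (((q + 1).choose k : ℤ) * ((q + 1 + k).choose k : ℤ)) with hA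
  have hdvd : ∀ k, k < q → ((q + 3 : ℕ) : ℤ) ∣ A (k + 2) := by
    intro k hk
    apply Dvd.dvd.mul_left
    have h1 : q + 3 ∣ (q + 1 + (k + 2)).choose (q + 1) :=
      hp.dvd_choose_add (by omega) (by omega) (by omega)
    rw [Nat.choose_symm_add] at h1
    exact_mod_cast h1
  have hsum : ∀ t : ℕ, 2 ≤ t → ∀ w : ℕ → ℤ,
      (((q + 3 : ℕ) : ℤ)) ^ 2 ∣ ∑ k ∈ range q, A (k + 2) ^ t * w (k + 2) := by
    intro t ht w
    apply dvd_sum
    intro k hk
    apply Dvd.dvd.mul_right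
    exact (pow_dvd_pow _ ht).trans (pow_dvd_pow_of_dvd (hdvd k (mem_range.mp hk)) t)
  have hr2 : ∑ k ∈ range (q + 1 + 1), A k ^ (s + m) =
      ∑ k ∈ range q, A (k + 2) ^ (s + m) * 1 + A 1 ^ (s + m) + A 0 ^ (s + m) := by
    rw [sum_range_succ', sum_range_succ']
    simp
  have hs2 : ∑ k ∈ range (q + 1 + 1), A k ^ s * z k =
      ∑ k ∈ range q, A (k + 2) ^ s * z (k + 2) + A 1 ^ s * z 1 + A 0 ^ s * z 0 := by
    rw [sum_range_succ', sum_range_succ']
  have h' : ∑ k ∈ range (q + 1 + 1), A k ^ (s + m) = ∑ k ∈ range (q + 1 + 1), A k ^ s * z k := h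
  rw [hr2, hs2, z0, z1] at h'
  have hA0 : A 0 = 1 := by simp [hA]
  have hA1 : A 1 = 2 + ((q + 3 : ℕ) : ℤ) * q := by
    simp only [hA, Nat.choose_one_right]
    push_cast; ring
  rw [hA0, one_pow, one_pow, mul_one] at h'
  obtain ⟨u, hu⟩ := hsum (s + m) (by omega) (fun _ => 1)
  obtain ⟨v, hv⟩ := hsum s (by omega) z
  rw [hu, hv] at h'
  set P : ℤ := ((q + 3 : ℕ) : ℤ) with hP
  have hPp : Prime P := Nat.prime_iff_prime_int.mp hp
  have hd1 : P ^ 2 ∣ A 1 ^ s * (A 1 ^ m - 2 ^ m) := by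
    refine ⟨v - u, ?_⟩
    rw [pow_add] at h'
    linear_combination h'
  have hcop : ¬ P ∣ A 1 := by
    rw [hA1]
    intro hd
    have : P ∣ 2 := (dvd_add_left (Dvd.intro _ rfl)).mp hd
    have := Int.le_of_dvd (by norm_num) this
    rw [hP] at this
    push_cast at this
    omega
  have hd2 : P ^ 2 ∣ A 1 ^ m - 2 ^ m := by
    have : IsCoprime (P ^ 2) (A 1 ^ s) := by
      apply IsCoprime.pow
      exact (Prime.coprime_iff_not_dvd hPp).mpr hcop
    exact this.dvd_of_dvd_mul_left hd1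
  rw [hA1] at hd2
  obtain ⟨k, hk⟩ := Polynomial.powAddExpansion (2 : ℤ) (P * q) m
  rw [hk] at hd2
  have hd3 : P ^ 2 ∣ (m : ℤ) * 2 ^ (m - 1) * (P * q) := by
    have e : (2 : ℤ) ^ m + m * 2 ^ (m - 1) * (P * q) + k * (P * q) ^ 2 - 2 ^ m =
        m * 2 ^ (m - 1) * (P * q) + P ^ 2 * (k * q ^ 2) := by ring
    rw [e] at hd2
    exact (dvd_add_left (Dvd.intro _ rfl)).mp hd2
  have hP0 : P ≠ 0 := hPp.ne_zero
  have hd4 : P ∣ (m : ℤ) * 2 ^ (m - 1) * q := by
    have e : (m : ℤ) * 2 ^ (m - 1) * (P * q) = P * (m * 2 ^ (m - 1) * q) := by ring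
    rw [e, pow_two] at hd3
    exact (mul_dvd_mul_iff_left hP0).mp hd3
  rcases hPp.dvd_or_dvd hd4 with h1 | h1
  · rcases hPp.dvd_or_dvd h1 with h2 | h2
    · have := Int.le_of_dvd (by exact_mod_cast hm) h2
      rw [hP] at this
      push_cast at this
      omega
    · have h3 := hPp.dvd_of_dvd_pow h2
      have := Int.le_of_dvd (by norm_num) h3
      rw [hP] at this
      push_cast at this
      omega
  · have hq : (0 : ℤ) < q := by
      have : 0 < q := by omega
      exact_mod_cast this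
    have := Int.le_of_dvd hq h1
    rw [hP] at this
    push_cast at this
    omega

/-- For all `r > s > 1`: the coefficients are uniquely determined, and some `c_n`, `n ≥ 1`, is
not an integer. -/
theorem result (r s : ℕ) (hs : 1 < s) (hr : s < r) :
    (∃! c : ℕ → ℚ, IsCoeff r s c) ∧
      ∀ c : ℕ → ℚ, IsCoeff r s c → ∃ n : ℕ, 0 < n ∧ ∀ z : ℤ, c n ≠ z := by
  refine ⟨⟨sol r s, sol_isCoeff r s, fun d hd => unique r s d _ hd (sol_isCoeff r s)⟩, ?_⟩
  intro c hc
  by_contra hcon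
  push Not at hcon
  have h0 : c 0 = ((1 : ℤ) : ℚ) := by
    have := hc 0
    simp at this
    rw [← this]; norm_num
  have hall : ∀ n, ∃ z : ℤ, c n = z := by
    intro n
    rcases Nat.eq_zero_or_pos n with rfl | hn
    · exact ⟨1, h0⟩
    · exact hcon n hn
  choose z hz using hall
  apply main r s hs hr z
  intro n
  have h := hc n
  have e : ((∑ k ∈ range (n + 1), ((n.choose k : ℤ) * ((n + k).choose k : ℤ)) ^ r : ℤ) : ℚ) =
      ((∑ k ∈ range (n + 1), ((n.choose k : ℤ) * ((n + k).choose k : ℤ)) ^ s * z k : ℤ) : ℚ) := by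
    push_cast
    simp only [mul_pow]
    rw [h]
    apply sum_congr rfl
    intro k _
    rw [hz k]
  exact_mod_cast e

end Pool.Agent.Results.MP_90f83a_nt.NonIntegral
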